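import Pool.Agent.K1H49.PL.Gen
import Pool.Agent.K1H1.PL.PFS

/-! Project PL, general case: piece PFG. -/

set_option autoImplicit false

namespace Pool.Agent.K1H10.PLG

open Pool.Agent.K1H49.PL Pool.Agent.K1H1.PL

universe u

theorem t_PFG (h : S_SML.{u}) : S_PFG.{u} := by
  classical
  intro L M _ hsat
  refine ⟨?_, fun Y hY => ⟨?_, ?_⟩⟩
  · intro α _ Γ hfin
    obtain ⟨v, hv⟩ := hsat Empty α (fun e => e.elim) {ψ | ∃ φ ∈ Γ, ψ = rl φ Sum.inr} (by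
      intro Δ hΔ
      have hΔ' : ∀ ψ ∈ Δ, ∃ φ, φ ∈ Γ ∧ ψ = rl φ Sum.inr := by
        intro ψ hψ
        obtain ⟨φ, h1, h2⟩ := hΔ ψ hψ
        exact ⟨φ, h1, h2⟩
      choose g hg1 hg2 using hΔ'
      obtain ⟨v, hv⟩ := hfin (Δ.attach.image fun ψ : {x // x ∈ Δ} => g ψ.1 ψ.2) (by
        intro φ hφ
        obtain ⟨ψ, _, rfl⟩ := Finset.mem_image.1 hφ
        exact hg1 ψ.1 ψ.2)
      refine ⟨v, fun ψ hψ => ?_⟩
      rw [hg2 ψ hψ, rl_realize]
      exact hv _ (Finset.mem_image.2 ⟨⟨ψ, hψ⟩, Finset.mem_attach _ _, rfl⟩))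
    refine ⟨v, fun φ hφ => ?_⟩
    have h1 := hv (rl φ Sum.inr) ⟨φ, hφ, rfl⟩
    rw [rl_realize] at h1
    exact h1
  · intro X α x Γ hD hfin
    obtain ⟨v, hv⟩ := hsat X α x {φ | {v : X ⊕ α → M | φ.Realize v} ∈ Γ} (by
      intro Δ hΔ
      obtain ⟨v, hv⟩ := hfin (Δ.image fun φ => {v : X ⊕ α → M | φ.Realize v}) (by
        intro S hS
        obtain ⟨φ, hφ, rfl⟩ := Finset.mem_image.1 hS
        exact hΔ φ hφ)
      exact ⟨v, fun φ hφ => hv _ (Finset.mem_image_of_mem _ hφ)⟩)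
    refine ⟨v, fun S hS => ?_⟩
    obtain ⟨φ, rfl⟩ := (hY S).1 (hD S hS)
    exact hv φ hS
  · intro α
    have h1 := h L M α
    refine small_of_injective (β := {S : Set (α → M) // ∃ φ : PF L α, S = {v | φ.Realize v}})
      (f := fun S : {S : Set (α → M) // Y.D S} => ⟨S.1, (hY S.1).1 S.2⟩) ?_
    intro a b hab
    have h2 := congrArg
      (fun z : {S : Set (α → M) // ∃ φ : PF L α, S = {v | φ.Realize v}} => z.1) hab
    exact Subtype.ext h2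

end Pool.Agent.K1H10.PLG
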